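import Pool.Agent.H310R3.W8

/-!
# The real numbers inject into non-scattered compact weakly Loeb spaces with a cuf base

In every model of Zermelo set theory (so in every model of ZF): if a compact Hausdorff space
has a base that is a cuf set, is weakly Loeb, and is not scattered, then the power set of the set
of the natural numbers injects into the set of its points.
-/

namespace Pool.Agent.Results.MP_bce22b_lc.RealsInject

open FirstOrder FirstOrder.Language
open Pool.Agent.Helper672.Plain (LSet Zermelo)
open Pool.Agent.H310Cards (IsOmega IsPow IsInj)
open Pool.Agent.H310Top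

universe u

theorem result (M : Type u) [LSet.Structure M] [Zermelo M] (x t b w p : M)
    (ht : IsTopology t x) (hb : IsBase b t) (hcuf : IsCuf b) (hc : IsCompact t x)
    (hh : IsHausdorff t x) (hs : ¬ IsScattered t x) (hl : IsWeaklyLoeb t x)
    (hw : IsOmega w) (hp : IsPow p w) : ∃ j, IsInj j p x :=
  Pool.Agent.H310.exists_real_inj ht hb hcuf hc hh hs hl hw hp

end Pool.Agent.Results.MP_bce22b_lc.RealsInject
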